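import Mathlib
import Pool.Agent.Helper34.KreinMain

/-!
# The measurable part of a functional on almost periodic polynomials

`D` is an ARBITRARY set of real numbers and `f` an ARBITRARY function in `R_D` (the functional
`∑ c_x e_x ↦ ∑ c_x f x` is bounded on the almost periodic polynomials with exponents in `D`).
There is ONE pair `gc` (continuous), `g0` (almost everywhere zero) of functions in `R_ℝ`, with
`‖gc‖ + ‖g0‖ ≤ ‖f‖_D`, which splits `f` on every open set `U ⊆ D` on which `f` is measurable; the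
norm of `f` over `U` is the sum of the norms of the two parts over `U`, and the two parts are unique
on `U`.  If `D` is open and `f` is measurable on `D` then `gc + g0` is a measurable extension of `f`
to the line with the same norm, and the norms of both parts are preserved as well.
-/

set_option autoImplicit false

open MeasureTheory Filter Topology Set InnerProductSpace

namespace Pool.Agent.Results.MP_f4ec25_an.LocalSplitting

/-- Value at `t` of the almost periodic polynomial `∑ c_x e^{i x t}` (finite sum). -/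
noncomputable def apEval (c : ℝ →₀ ℂ) (t : ℝ) : ℂ :=
  ∑ x ∈ c.support, c x * Complex.exp (Complex.I * (x : ℂ) * (t : ℂ))

/-- The functional `Φ_f`, sending `∑ c_x e_x` to `∑ c_x f(x)`. -/
noncomputable def functional (f : ℝ → ℂ) (c : ℝ →₀ ℂ) : ℂ :=
  ∑ x ∈ c.support, c x * f x

/-- `C` bounds the functional `Φ_f` on almost periodic polynomials with exponents in `D`. -/
def IsBound (D : Set ℝ) (f : ℝ → ℂ) (C : ℝ) : Prop :=
  0 ≤ C ∧ ∀ c : ℝ →₀ ℂ, (∀ x ∈ c.support, x ∈ D) →
    ∀ M : ℝ, (∀ t : ℝ, ‖apEval c t‖ ≤ M) → ‖functional f c‖ ≤ C * M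

/-- `f` restricted to `D` belongs to `R_D`. -/
def MemR (D : Set ℝ) (f : ℝ → ℂ) : Prop := ∃ C : ℝ, IsBound D f C

/-- The norm of `f` in `R_D`: the operator norm of `Φ_f`, the least bound. -/
noncomputable def normR (D : Set ℝ) (f : ℝ → ℂ) : ℝ := sInf {C : ℝ | IsBound D f C}

lemma bddBelow_bounds (D : Set ℝ) (f : ℝ → ℂ) : BddBelow {C : ℝ | IsBound D f C} :=
  ⟨0, fun _ hC => hC.1⟩

/-- The least bound is a bound: the norm is attained. -/
lemma isBound_normR {D : Set ℝ} {f : ℝ → ℂ} (hf : MemR D f) : IsBound D f (normR D f) := by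
  have hne : {C : ℝ | IsBound D f C}.Nonempty := hf
  refine ⟨le_csInf hne fun _ hC => hC.1, fun c hc M hM => ?_⟩
  have hM0 : 0 ≤ M := (norm_nonneg _).trans (hM 0)
  rcases hM0.eq_or_lt with hM0 | hM0
  · obtain ⟨C, hC⟩ := hf
    have := hC.2 c hc M hM
    rw [← hM0, mul_zero] at this ⊢
    exact this
  · rw [← div_le_iff₀ hM0]
    refine le_csInf hne fun C hC => ?_
    rw [div_le_iff₀ hM0]
    exact hC.2 c hc M hM

lemma normR_le {D : Set ℝ} {f : ℝ → ℂ} {C : ℝ} (h : IsBound D f C) : normR D f ≤ C :=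
  csInf_le (bddBelow_bounds D f) h

lemma IsBound.congr {D U : Set ℝ} {f g : ℝ → ℂ} {C : ℝ} (h : IsBound D f C) (hU : U ⊆ D)
    (hfg : ∀ x ∈ U, f x = g x) : IsBound U g C := by
  refine ⟨h.1, fun c hc M hM => ?_⟩
  have h1 := h.2 c (fun x hx => hU (hc x hx)) M hM
  have h2 : functional g c = functional f c :=
    Finset.sum_congr rfl fun x hx => by rw [hfg x (hc x hx)]
  rw [h2]
  exact h1

lemma normR_congr {D : Set ℝ} {f g : ℝ → ℂ} (hfg : ∀ x ∈ D, f x = g x) :
    normR D f = normR D g := by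
  unfold normR
  congr 1
  ext C
  exact ⟨fun h => h.congr Subset.rfl hfg, fun h => h.congr Subset.rfl fun x hx => (hfg x hx).symm⟩

lemma IsBound.add {D : Set ℝ} {f g : ℝ → ℂ} {a b : ℝ} (hf : IsBound D f a) (hg : IsBound D g b) :
    IsBound D (fun x => f x + g x) (a + b) := by
  refine ⟨add_nonneg hf.1 hg.1, fun c hc M hM => ?_⟩
  have h3 : functional (fun x => f x + g x) c = functional f c + functional g c := by
    unfold functional
    rw [← Finset.sum_add_distrib]
    exact Finset.sum_congr rfl fun x _ => by ring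
  rw [h3, add_mul]
  exact (norm_add_le _ _).trans (add_le_add (hf.2 c hc M hM) (hg.2 c hc M hM))

open Pool.Agent.Helper34.Krein

/-- the decomposition of a vector which is good on all open sets at once -/
theorem decomposition {H : Type*} [NormedAddCommGroup H] [InnerProductSpace ℂ H]
    [CompleteSpace H] {π : ℝ → H →ₗᵢ[ℂ] H} (hπ : IsRep π) (u v : H) :
    ∃ uc u0 u2 : H, u = uc + u0 + u2 ∧ uc ∈ Hc π ∧ u0 ∈ H0 π ∧
      ‖uc + u0‖ ^ 2 + ‖u2‖ ^ 2 = ‖u‖ ^ 2 ∧ ∀ U : Set ℝ, IsOpen U →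
        AEStronglyMeasurable (fun l : ℝ => ⟪v, π l u⟫_ℂ) (volume.restrict U) →
          ∀ l ∈ U, ⟪v, π l u2⟫_ℂ = 0 := by
  have hc1 := (isClosed_Hc π).completeSpace_coe
  have hc0 := (isClosed_H0 π).completeSpace_coe
  set uc := (Hc π).starProjection u with huc
  have hucm : uc ∈ Hc π := Submodule.starProjection_apply_mem _ _
  set u1 := u - uc with hu1
  have hu1m : u1 ∈ (Hc π)ᗮ := Submodule.sub_starProjection_mem_orthogonal u
  set u0 := (H0 π).starProjection u1 with hu0
  have hu0m : u0 ∈ H0 π := Submodule.starProjection_apply_mem _ _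
  set u2 := u1 - u0 with hu2
  have hu2m : u2 ∈ (H0 π)ᗮ := Submodule.sub_starProjection_mem_orthogonal u1
  refine ⟨uc, u0, u2, by rw [hu2, hu1]; abel, hucm, hu0m, ?_, ?_⟩
  · have e1 : ⟪uc + u0, u2⟫_ℂ = 0 := by
      rw [inner_add_left]
      have h2 : ⟪u0, u2⟫_ℂ = 0 := (Submodule.mem_orthogonal _ _).1 hu2m u0 hu0m
      have h3 : ⟪uc, u1⟫_ℂ = 0 := (Submodule.mem_orthogonal _ _).1 hu1m uc hucm
      have h4 : ⟪uc, u0⟫_ℂ = 0 := hπ.inner_Hc_H0 hucm hu0m
      have h5 : ⟪uc, u2⟫_ℂ = 0 := by rw [hu2, inner_sub_right, h3, h4, sub_zero]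
      rw [h2, h5, add_zero]
    have e2 := norm_add_sq_eq_norm_sq_add_norm_sq_of_inner_eq_zero (uc + u0) u2 e1
    have e3 : uc + u0 + u2 = u := by rw [hu2, hu1]; abel
    rw [e3] at e2
    nlinarith [e2]
  · intro U hU hF l₀ hl₀
    obtain ⟨δ, hδ, hball⟩ := Metric.isOpen_iff.1 hU l₀ hl₀
    have hF1 : AEStronglyMeasurable (fun l : ℝ => ⟪v, π l u1⟫_ℂ) (volume.restrict U) := by
      have h1 : (fun l : ℝ => ⟪v, π l u1⟫_ℂ) = fun l => ⟪v, π l u⟫_ℂ - ⟪v, π l uc⟫_ℂ := by
        funext l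
        rw [hu1, map_sub, inner_sub_right]
      rw [h1]
      refine hF.sub ?_
      have h2 : Continuous fun l : ℝ => ⟪v, π l uc⟫_ℂ := by
        have h3 : Continuous fun l : ℝ => π l uc := hucm
        exact continuous_const.inner h3
      exact h2.aestronglyMeasurable
    have h2 : AEStronglyMeasurable (fun l : ℝ => ⟪v, π l (π l₀ u1)⟫_ℂ)
        (volume.restrict (Ioo (-δ) δ)) := by
      have h3 := aestronglyMeasurable_comp_add (T := Ioo (-δ) δ) (a := l₀) hF1
        hU.measurableSet (by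
          intro l hl
          apply hball
          rw [Metric.mem_ball, Real.dist_eq, add_sub_cancel_right, abs_lt]
          exact hl)
      simpa only [hπ.add] using h3
    have h4 := hπ.ae_zero_of_measurable (hπ.orthogonal_invariant
      (fun w hw b => hπ.Hc_invariant hw b) hu1m l₀) hδ h2
    have h5 : ∀ᵐ l : ℝ, |l| < δ / 2 → ⟪v, π l (π l₀ u2)⟫_ℂ = 0 := by
      filter_upwards [h4, hπ.H0_invariant hu0m l₀ v] with l hl hl2 hl3
      rw [hu2, map_sub, map_sub, inner_sub_right, hl hl3, hl2, sub_zero]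
    exact hπ.inner_eq_zero_of_ae_zero (hπ.orthogonal_invariant
      (fun w hw b => hπ.H0_invariant hw b) hu2m l₀) (by positivity) h5

/-- the two parts -/
theorem parts (D : Set ℝ) (f : ℝ → ℂ) (hf : MemR D f) :
    ∃ gc g0 : ℝ → ℂ, ∃ a b : ℝ, IsBound univ gc a ∧ IsBound univ g0 b ∧ a + b ≤ normR D f ∧
      Continuous gc ∧ (∀ᵐ x : ℝ, g0 x = 0) ∧
      ∀ U : Set ℝ, U ⊆ D → IsOpen U → AEMeasurable f (volume.restrict U) →
        ∀ x ∈ U, f x = gc x + g0 x := by
  have hC := isBound_normR hf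
  obtain ⟨H, i1, i2, i3, π, u, v, hπ, hb, hu, hv, hrep⟩ := exists_rep D f (normR D f) (by
      intro h hh M hM
      rw [Phi_apply]
      refine hC.2 h ?_ M ?_
      · intro x hx
        exact (Finsupp.mem_supported ℂ h).1 hh hx
      · intro t
        have := hM t
        rw [ap_apply] at this
        exact this)
  obtain ⟨uc, u0, u2, hsum, huc, hu0, hpyth, hz⟩ := decomposition hπ u v
  have hc1 := (isClosed_Hc π).completeSpace_coe
  have hc0 := (isClosed_H0 π).completeSpace_coe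
  set vc := (Hc π).starProjection v with hvcdef
  have hvc : vc ∈ Hc π := Submodule.starProjection_apply_mem _ _
  have hvc' : v - vc ∈ (Hc π)ᗮ := Submodule.sub_starProjection_mem_orthogonal v
  set v0 := (H0 π).starProjection v with hv0def
  have hv0 : v0 ∈ H0 π := Submodule.starProjection_apply_mem _ _
  have hv0' : v - v0 ∈ (H0 π)ᗮ := Submodule.sub_starProjection_mem_orthogonal v
  -- coefficients against the projections
  have ec : ∀ x : ℝ, (inner ℂ v (π x uc) : ℂ) = inner ℂ vc (π x uc) := by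
    intro x
    have h1 := (Submodule.mem_orthogonal' _ _).1 hvc' _ (hπ.Hc_invariant huc x)
    rw [inner_sub_left, sub_eq_zero] at h1
    exact h1
  have e0 : ∀ x : ℝ, (inner ℂ v (π x u0) : ℂ) = inner ℂ v0 (π x u0) := by
    intro x
    have h1 := (Submodule.mem_orthogonal' _ _).1 hv0' _ (hπ.H0_invariant hu0 x)
    rw [inner_sub_left, sub_eq_zero] at h1
    exact h1
  -- norms of the projections
  have hun : ‖uc‖ ^ 2 + ‖u0‖ ^ 2 ≤ normR D f := by
    have h1 := norm_add_sq_eq_norm_sq_add_norm_sq_of_inner_eq_zero uc u0 (hπ.inner_Hc_H0 huc hu0)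
    nlinarith [sq_nonneg ‖u2‖]
  have hvn : ‖vc‖ ^ 2 + ‖v0‖ ^ 2 ≤ normR D f := by
    have h1 := norm_add_sq_eq_norm_sq_add_norm_sq_of_inner_eq_zero vc v0 (hπ.inner_Hc_H0 hvc hv0)
    have h2 : (inner ℂ (v - (vc + v0)) (vc + v0) : ℂ) = 0 := by
      have a1 : (inner ℂ (v - vc) vc : ℂ) = 0 := (Submodule.mem_orthogonal' _ _).1 hvc' _ hvc
      have a2 : (inner ℂ (v - v0) v0 : ℂ) = 0 := (Submodule.mem_orthogonal' _ _).1 hv0' _ hv0
      have a3 : (inner ℂ vc v0 : ℂ) = 0 := hπ.inner_Hc_H0 hvc hv0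
      have a4 : (inner ℂ v0 vc : ℂ) = 0 := by rw [← inner_conj_symm, a3, map_zero]
      rw [inner_sub_left] at a1 a2 ⊢
      rw [inner_add_right, inner_add_right, inner_add_left, inner_add_left, a3, a4]
      linear_combination a1 + a2
    have h3 := norm_add_sq_eq_norm_sq_add_norm_sq_of_inner_eq_zero (v - (vc + v0)) (vc + v0) h2
    rw [sub_add_cancel] at h3
    nlinarith [sq_nonneg ‖v - (vc + v0)‖, mul_self_nonneg ‖v - (vc + v0)‖]
  -- bounds for the two coefficients
  have hbound : ∀ (g : ℝ → ℂ) (a b : H), (∀ x : ℝ, g x = inner ℂ a (π x b)) →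
      IsBound univ g (‖a‖ * ‖b‖) := by
    intro g a b hg
    refine ⟨by positivity, fun c _ M hM => ?_⟩
    have h1 := norm_Phi_coeff_le hb a b c M (by
      intro t
      rw [ap_apply]
      exact hM t)
    rw [Phi_apply] at h1
    have h2 : functional g c = ∑ x ∈ c.support, c x * inner ℂ a (π x b) :=
      Finset.sum_congr rfl fun x _ => by rw [hg x]
    rw [h2]
    exact h1
  refine ⟨fun x => inner ℂ v (π x uc), fun x => inner ℂ v (π x u0), ‖vc‖ * ‖uc‖, ‖v0‖ * ‖u0‖,
    hbound _ vc uc ec, hbound _ v0 u0 e0, ?_, ?_, hu0 v, ?_⟩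
  · nlinarith [sq_nonneg (‖vc‖ - ‖uc‖), sq_nonneg (‖v0‖ - ‖u0‖)]
  · have h3 : Continuous fun l : ℝ => π l uc := huc
    exact continuous_const.inner h3
  · intro U hUD hU hfm x hx
    have hF : AEStronglyMeasurable (fun l : ℝ => inner ℂ v (π l u)) (volume.restrict U) := by
      refine hfm.aestronglyMeasurable.congr ?_
      filter_upwards [self_mem_ae_restrict hU.measurableSet] with x hx
      exact hrep x (hUD hx)
    rw [hrep x (hUD hx), hsum, map_add (π x) (uc + u0) u2, map_add (π x) uc u0, inner_add_right,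
      inner_add_right, hz U hU hF x hx, add_zero]

/-- the two parts are unique -/
theorem unique_parts {U : Set ℝ} (hU : IsOpen U) {f gc g0 hc h0 : ℝ → ℂ}
    (h1 : ∀ x ∈ U, f x = gc x + g0 x) (h2 : ∀ x ∈ U, f x = hc x + h0 x)
    (h3 : ContinuousOn gc U) (h4 : ContinuousOn hc U)
    (h5 : ∀ᵐ x ∂(volume.restrict U), g0 x = 0) (h6 : ∀ᵐ x ∂(volume.restrict U), h0 x = 0) :
    ∀ x ∈ U, hc x = gc x ∧ h0 x = g0 x := by
  have hae : hc =ᵐ[volume.restrict U] gc := by
    filter_upwards [h5, h6, self_mem_ae_restrict hU.measurableSet] with x a1 a2 hx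
    have a3 := h1 x hx
    rw [h2 x hx, a1, a2, add_zero, add_zero] at a3
    exact a3
  have heq := Measure.eqOn_open_of_ae_eq hae hU h4 h3
  intro x hx
  have a1 : hc x = gc x := heq hx
  refine ⟨a1, ?_⟩
  have a2 := h1 x hx
  rw [h2 x hx, a1] at a2
  exact add_left_cancel a2

/-- additivity of the norm on the open sets on which `f` is measurable -/
theorem norm_add {U : Set ℝ} (hU : IsOpen U) {f : ℝ → ℂ} (hf : MemR U f)
    (hfm : AEMeasurable f (volume.restrict U)) {gc g0 : ℝ → ℂ}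
    (h1 : ∀ x ∈ U, f x = gc x + g0 x) (h3 : ContinuousOn gc U)
    (h5 : ∀ᵐ x ∂(volume.restrict U), g0 x = 0) :
    MemR U gc ∧ MemR U g0 ∧ normR U f = normR U gc + normR U g0 := by
  obtain ⟨kc, k0, a, b, ha, hb, hab, kcc, kk0, hk⟩ := parts U f hf
  have hk' := hk U Subset.rfl hU hfm
  have huq := unique_parts hU hk' h1 kcc.continuousOn h3 (ae_restrict_of_ae kk0) h5
  have ba : IsBound U gc a := ha.congr (subset_univ U) fun x hx => (huq x hx).1.symm
  have bb : IsBound U g0 b := hb.congr (subset_univ U) fun x hx => (huq x hx).2.symm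
  refine ⟨⟨a, ba⟩, ⟨b, bb⟩, le_antisymm ?_ ?_⟩
  · apply normR_le
    exact ((isBound_normR ⟨a, ba⟩).add (isBound_normR ⟨b, bb⟩)).congr Subset.rfl
      fun x hx => (h1 x hx).symm
  · have := normR_le ba
    have := normR_le bb
    linarith

/-- **Main theorem.**  (1) Let `D` be any set of real numbers and `f` in `R_D` (not assumed to be
measurable).  There are a continuous `gc` in `R_ℝ` and an almost everywhere vanishing `g0` in `R_ℝ`
with `‖gc‖_ℝ + ‖g0‖_ℝ ≤ ‖f‖_D` such that for every open `U ⊆ D` on which `f` is Lebesgue measurable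
`f = gc + g0` on `U`, `‖f‖_U = ‖gc‖_U + ‖g0‖_U`, and every splitting of `f` on `U` into a continuous
and an almost everywhere vanishing function is this one.  If `D` is open and `f` is measurable on
`D` then `gc + g0` is an extension of `f` with `‖gc + g0‖_ℝ = ‖f‖_D`, `‖gc‖_ℝ = ‖gc‖_D` and
`‖g0‖_ℝ = ‖g0‖_D`.
(2) In particular (the question) for `0 < A < ∞` every `f` in `R_A` which is measurable on `(-A, A)`
has a measurable extension to the line in `R_∞` of the same norm. -/
theorem result :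
    (∀ (D : Set ℝ) (f : ℝ → ℂ), MemR D f → ∃ gc g0 : ℝ → ℂ,
      (MemR univ gc ∧ Continuous gc) ∧ (MemR univ g0 ∧ ∀ᵐ x : ℝ, g0 x = 0) ∧
      normR univ gc + normR univ g0 ≤ normR D f ∧
      (∀ U : Set ℝ, U ⊆ D → IsOpen U → AEMeasurable f (volume.restrict U) →
        (∀ x ∈ U, f x = gc x + g0 x) ∧ normR U f = normR U gc + normR U g0 ∧
        ∀ hc h0 : ℝ → ℂ, (∀ x ∈ U, f x = hc x + h0 x) → ContinuousOn hc U →
          (∀ᵐ x ∂(volume.restrict U), h0 x = 0) → ∀ x ∈ U, hc x = gc x ∧ h0 x = g0 x) ∧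
      (IsOpen D → AEMeasurable f (volume.restrict D) →
        normR univ (fun x => gc x + g0 x) = normR D f ∧
        normR univ gc = normR D gc ∧ normR univ g0 = normR D g0)) ∧
    ∀ A : ℝ, 0 < A → ∀ f : ℝ → ℂ, MemR (Ioo (-A) A) f →
      AEMeasurable f (volume.restrict (Ioo (-A) A)) →
      ∃ g : ℝ → ℂ, (∀ x ∈ Ioo (-A) A, g x = f x) ∧ AEMeasurable g volume ∧ MemR univ g ∧
        normR univ g = normR (Ioo (-A) A) f := by
  have main : ∀ (D : Set ℝ) (f : ℝ → ℂ), MemR D f → ∃ gc g0 : ℝ → ℂ,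
      (MemR univ gc ∧ Continuous gc) ∧ (MemR univ g0 ∧ ∀ᵐ x : ℝ, g0 x = 0) ∧
      normR univ gc + normR univ g0 ≤ normR D f ∧
      (∀ U : Set ℝ, U ⊆ D → IsOpen U → AEMeasurable f (volume.restrict U) →
        (∀ x ∈ U, f x = gc x + g0 x) ∧ normR U f = normR U gc + normR U g0 ∧
        ∀ hc h0 : ℝ → ℂ, (∀ x ∈ U, f x = hc x + h0 x) → ContinuousOn hc U →
          (∀ᵐ x ∂(volume.restrict U), h0 x = 0) → ∀ x ∈ U, hc x = gc x ∧ h0 x = g0 x) ∧
      (IsOpen D → AEMeasurable f (volume.restrict D) →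
        normR univ (fun x => gc x + g0 x) = normR D f ∧
        normR univ gc = normR D gc ∧ normR univ g0 = normR D g0) := by
    intro D f hf
    obtain ⟨gc, g0, a, b, ha, hb, hab, hgc, hg0, hk⟩ := parts D f hf
    have hU : ∀ U : Set ℝ, U ⊆ D → IsOpen U → AEMeasurable f (volume.restrict U) →
        (∀ x ∈ U, f x = gc x + g0 x) ∧ normR U f = normR U gc + normR U g0 ∧
        ∀ hc h0 : ℝ → ℂ, (∀ x ∈ U, f x = hc x + h0 x) → ContinuousOn hc U →
          (∀ᵐ x ∂(volume.restrict U), h0 x = 0) → ∀ x ∈ U, hc x = gc x ∧ h0 x = g0 x := by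
      intro U hUD hU hfm
      have h1 := hk U hUD hU hfm
      have hfU : MemR U f := ⟨_, (isBound_normR hf).congr hUD fun x _ => rfl⟩
      refine ⟨h1, (norm_add hU hfU hfm h1 hgc.continuousOn (ae_restrict_of_ae hg0)).2.2, ?_⟩
      intro hc h0 a1 a2 a3
      exact unique_parts hU h1 a1 hgc.continuousOn a2 (ae_restrict_of_ae hg0) a3
    have n1 := normR_le ha
    have n2 := normR_le hb
    refine ⟨gc, g0, ⟨⟨a, ha⟩, hgc⟩, ⟨⟨b, hb⟩, hg0⟩, by linarith, hU, ?_⟩
    intro hD hfm
    obtain ⟨h1, h2, -⟩ := hU D Subset.rfl hD hfm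
    have r1 : normR D gc ≤ normR univ gc :=
      normR_le ((isBound_normR ⟨a, ha⟩).congr (subset_univ D) fun x _ => rfl)
    have r2 : normR D g0 ≤ normR univ g0 :=
      normR_le ((isBound_normR ⟨b, hb⟩).congr (subset_univ D) fun x _ => rfl)
    have r3 : normR univ (fun x => gc x + g0 x) ≤ normR univ gc + normR univ g0 :=
      normR_le ((isBound_normR ⟨a, ha⟩).add (isBound_normR ⟨b, hb⟩))
    have r4 : normR D f ≤ normR univ (fun x => gc x + g0 x) := by
      apply normR_le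
      exact (isBound_normR (D := univ) (f := fun x => gc x + g0 x) ⟨a + b, ha.add hb⟩).congr
        (subset_univ D) fun x hx => (h1 x hx).symm
    refine ⟨by linarith, by linarith, by linarith⟩
  refine ⟨main, fun A _ f hf hfm => ?_⟩
  obtain ⟨gc, g0, ⟨m1, c1⟩, ⟨m2, z2⟩, -, h1, h2⟩ := main _ f hf
  obtain ⟨e1, -, -⟩ := h1 _ Subset.rfl isOpen_Ioo hfm
  obtain ⟨e2, -, -⟩ := h2 isOpen_Ioo hfm
  refine ⟨fun x => gc x + g0 x, fun x hx => (e1 x hx).symm, ?_, ?_, e2⟩
  · refine c1.measurable.aemeasurable.add ?_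
    exact aemeasurable_const.congr (EventuallyEq.symm z2)
  · obtain ⟨a, ha⟩ := m1
    obtain ⟨b, hb⟩ := m2
    exact ⟨a + b, ha.add hb⟩

end Pool.Agent.Results.MP_f4ec25_an.LocalSplitting
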